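import Mathlib
import Pool.Agent.W889.SR.Defs
import Pool.Agent.W889.SR.Asm
import Pool.Agent.W889.SR.Asm2
import Pool.Agent.W889.SR.Tree2
import Pool.Agent.W196.SR.FM
import Pool.Agent.W199.SR.K12
import Pool.Agent.W917.SR.K3
import Pool.Agent.W347.SR.Fin
import Pool.Agent.W917.SR.CBD
import Pool.Agent.W654.SR.FV
import Pool.Agent.W654.SR.Tree
import Pool.Agent.W989.SR.QB
import Pool.Agent.W872.SR.L1NM
import Pool.Agent.W64.SR.Def
import Pool.Agent.W989.SR.SW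
import Pool.Agent.W989.SR.INV
import Pool.Agent.W882.SR.Orb
import Pool.Agent.W885.SR.Celaws
import Pool.Agent.W636.SR.Fatex
import Pool.Agent.W440.SR.SEQ
import Pool.Agent.W196.SR.SUM
import Pool.Agent.W366.SR.M0
import Pool.Agent.W143.SR.Trans
import Pool.Agent.W696.SR.Low
import Pool.Agent.W959.SR.FR
import Pool.Agent.W762.SR.Fat
import Pool.Agent.W494.SR.FORM
import Pool.Agent.W889.SR.ScottEx

/-!
# MP_efc3dd_lc: Scott ranks of members of `Π_α` classes of trees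

`Bd α β`: every `Π_α` sentence with a countable tree model has a countable tree model of Scott
rank at most `β`.  We show: `Bd α (α + 1)` for all countable `α ≥ 1` (so the bound `α + 2` is never
sharp), `Bd (α + 1) (α + 1)` for all countable `α ≥ 2`, and `¬ Bd α α` for all countable limit
ordinals `α`.
-/

set_option autoImplicit false

namespace Pool.Agent.Results.MP_efc3dd_lc.ScottRankBounds

open Pool.Agent.W889.SR

/-- every `Π_α` sentence with a countable tree model has a countable tree model of Scott rank at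
most `β` -/
def Bd (α β : Ordinal.{0}) : Prop := ∀ φ : Fml 0, φ.IsPi α →
  (∃ (T : Type) (_ : Countable T) (r : T → T → Prop), IsTree r ∧ Sat r φ) →
  ∃ (M : Type) (_ : Countable M) (s : M → M → Prop), IsTree s ∧ Sat s φ ∧ scottRank s ≤ β

theorem result :
    (∀ (M : Type) [Countable M] [Nonempty M] (s : M → M → Prop), (scottSet s).Nonempty) ∧
    (∀ α : Ordinal.{0}, 1 ≤ α → α.card ≤ Cardinal.aleph0 → Bd α (α + 1)) ∧
    (∀ α : Ordinal.{0}, 2 ≤ α → α.card ≤ Cardinal.aleph0 → Bd (α + 1) (α + 1)) ∧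
    (∀ α : Ordinal.{0}, 0 < α → (∀ γ < α, γ + 1 < α) → α.card ≤ Cardinal.aleph0 → ¬ Bd α α) := by
  have hFM := Pool.Agent.W196.SR.fm
  obtain ⟨hK1, hK2, hRD⟩ := Pool.Agent.W199.SR.k12 hFM
  have hK3 := Pool.Agent.W917.SR.k3 hFM
  have hscott : ∀ (M : Type) [Countable M] [Nonempty M] (s : M → M → Prop),
      (scottSet s).Nonempty := fun M _ _ s => Pool.Agent.W889.SR.ScottEx.scott hFM hK1 hK2 hK3 M s
  refine ⟨hscott, ?_, ?_, ?_⟩
  · intro α h1 hc φ hφ hT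
    obtain ⟨M, hM, s, hs, hsφ, ψ, hψ, hψ'⟩ := assemble Pool.Agent.W196.SR.fm
      Pool.Agent.W199.SR.k12 Pool.Agent.W917.SR.k3 Pool.Agent.W347.SR.fin
      Pool.Agent.W917.SR.cbd Pool.Agent.W654.SR.main Pool.Agent.W654.SR.Tr.main
      Pool.Agent.W989.SR.QB.qb Pool.Agent.W872.SR.L1NM.l1nm Pool.Agent.W64.SR.defn
      Pool.Agent.W989.SR.SW.sw Pool.Agent.W989.SR.INV.inv Pool.Agent.W882.SR.orb
      α h1 hc φ hφ hT
    exact ⟨M, hM, s, hs, hsφ, csInf_le' ⟨ψ, hψ, hψ'⟩⟩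
  · intro α h2 hc φ hφ hT
    obtain ⟨M, hM, s, hs, hsφ, ψ, hψ, hψ'⟩ := assemble2 Pool.Agent.W196.SR.fm
      Pool.Agent.W199.SR.k12 Pool.Agent.W917.SR.k3 Pool.Agent.W347.SR.fin
      Pool.Agent.W917.SR.cbd Pool.Agent.W654.SR.main Pool.Agent.W889.SR.Tr2.tree2
      Pool.Agent.W989.SR.QB.qb Pool.Agent.W872.SR.L1NM.l1nm Pool.Agent.W64.SR.defn
      Pool.Agent.W989.SR.SW.sw Pool.Agent.W989.SR.INV.inv Pool.Agent.W882.SR.orb
      α h2 hc φ hφ hT
    exact ⟨M, hM, s, hs, hsφ, csInf_le' ⟨ψ, hψ, hψ'⟩⟩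
  · intro α h0 hlim hc hBd
    obtain ⟨φ, hφ, hT, hno⟩ := lower Pool.Agent.W885.SR.celaws Pool.Agent.W959.SR.fr
      Pool.Agent.W762.SR.fat Pool.Agent.W636.SR.fatex Pool.Agent.W440.SR.seq
      Pool.Agent.W196.SR.sum Pool.Agent.W366.SR.m0 Pool.Agent.W494.SR.form
      Pool.Agent.W143.SR.transf Pool.Agent.W696.SR.low hFM hK1 α ⟨h0, hlim⟩
      (iio_countable α hc)
    obtain ⟨M, hM, s, hs, hsφ, hrk⟩ := hBd φ hφ hT
    have : Nonempty M := ⟨hs.root.choose⟩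
    obtain ⟨ψ, hψ, hψ'⟩ := csInf_mem (hscott M s)
    exact hno M s hs hsφ ⟨ψ, hFM.mono 0 ψ false _ _ (add_le_add_left hrk 1) hψ, hψ'⟩

end Pool.Agent.Results.MP_efc3dd_lc.ScottRankBounds
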